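import Pool.Agent.helper55.RI.Spec

/-!
# F2: `HypH → Question`
-/

set_option autoImplicit false

namespace Pool.Agent.RI

open Pool.Agent.helper62 Prog Function Pool.Agent.helper81.PL

theorem F2_LI (hF1 : F1_stmt) (hD5 : D5_stmt) (hK1 : K1_stmt) (hK3 : K3_stmt) (hQ2 : Q2_stmt)
    (hQ3 : Q3_stmt) (hB4 : B4_stmt) (hH : HypH) (A : Set W) (hA : Complete A) : LI KS A := by
  obtain ⟨f, hf, hinj, hred, hlen⟩ := hD5 A hA
  have hc : Computable f := hF1.2.2.1 f ((hF1.1 f).2 hf)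
  obtain ⟨b, hb⟩ := hK1.2 (QQ f) (hQ2 f hc hlen)
  have hF : PT (fun y => f (pre b y)) := by
    have h1 : PT (fun y : W => pre b y) :=
      PT.comp (g := fun p : ℕ × W => pre p.1 p.2) (f := fun y : W => (b, y)) hK3.1 (by fun_prop)
    exact PT.comp (g := f) (f := fun y : W => pre b y) hf h1
  have hFi : Injective (fun y => f (pre b y)) := by
    intro y y' h
    exact (hK3.2.1 b b y y' (hinj h)).2
  have hFl : ∀ y : W, y.length < 2 ^ (f (pre b y)).length := by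
    intro y
    have h1 := hlen (pre b y)
    have h2 := hK3.2.2.1 b y
    omega
  obtain ⟨g, ⟨hg, m, hm, hmg⟩, hr⟩ := hH (fun y => f (pre b y)) ((hF1.1 _).2 hF) hFi hFl
  refine hB4 A hA.1 (hQ3 A f b hf hinj hred hb ⟨g, m, (hF1.1 g).1 hg, (hF1.1 m).1 hm, hmg, ?_⟩)
  intro z
  exact hr ⟨z, rfl⟩

theorem F2 (hF1 : F1_stmt) (hD5 : D5_stmt) (hK1 : K1_stmt) (hK3 : K3_stmt) (hQ2 : Q2_stmt)
    (hQ3 : Q3_stmt) (hB4 : B4_stmt) : F2_stmt := by
  intro hH A B hA hB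
  obtain ⟨h, g, hh, hg, hgh, hhg, hm⟩ := F2_LI hF1 hD5 hK1 hK3 hQ2 hQ3 hB4 hH A hA
  obtain ⟨h', g', hh', hg', hgh', hhg', hm'⟩ := F2_LI hF1 hD5 hK1 hK3 hQ2 hQ3 hB4 hH B hB
  refine ⟨fun x => h' (g x), fun x => h (g' x), (hF1.1 _).2 (PT.comp (g := h') (f := g) hh' hg),
    (hF1.1 _).2 (PT.comp (g := h) (f := g') hh hg'), ?_, ?_, ?_⟩
  · intro x
    show h (g' (h' (g x))) = x
    rw [hgh', hhg]
  · intro x
    show h' (g (h (g' x))) = x
    rw [hgh, hhg']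
  · intro x
    show x ∈ A ↔ h' (g x) ∈ B
    rw [← hm' (g x), hm (g x), hhg]

end Pool.Agent.RI
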